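import Mathlib

/- Choice of the two moduli. -/

namespace Pool.Agent.P.MP_6d14ae_al

theorem two_primes (k : ℕ) (hk : 3 ≤ k) :
    ∃ p q : ℕ, p.Prime ∧ q.Prime ∧ p ≠ q ∧ ¬ p ∣ k ∧ ¬ q ∣ k ∧
      (q : ℤ) ∣ (1 - k : ℤ) ^ p - 1 := by
  obtain ⟨p, hpk, hp⟩ := Nat.exists_infinite_primes (k + 1)
  have hpn : ¬ p ∣ k := fun h => by have := Nat.le_of_dvd (by omega) h; omega
  set S : ℤ := ∑ i ∈ Finset.range p, (1 - k : ℤ) ^ i with hS
  have h1 : S * ((1 - k : ℤ) - 1) = (1 - k : ℤ) ^ p - 1 := by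
    rw [hS]; exact geom_sum_mul _ _
  have h2 : S.natAbs ≠ 1 := by
    intro h
    have h2 : |S| = 1 := by rw [Int.abs_eq_natAbs, h]; rfl
    have h3 : (2 : ℤ) ^ p ≤ |(1 - k : ℤ) ^ p| := by
      rw [abs_pow]
      refine pow_le_pow_left₀ (by norm_num) ?_ _
      rw [abs_sub_comm, abs_of_nonneg (by omega)]
      omega
    have h4 : |(1 - k : ℤ) ^ p| ≤ k + 1 := by
      have : (1 - k : ℤ) ^ p = 1 - S * k := by linear_combination -h1
      rw [this]
      refine (abs_sub _ _).trans ?_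
      rw [abs_mul, abs_one, Nat.abs_cast, h2]
      omega
    have h5 : (p : ℤ) < 2 ^ p := by exact_mod_cast Nat.lt_two_pow_self
    omega
  obtain ⟨q, hq, hqS⟩ := Nat.exists_prime_and_dvd h2
  have hqS' : (q : ℤ) ∣ S := Int.natCast_dvd.2 hqS
  have hq0 : ((S : ℤ) : ZMod q) = 0 := (ZMod.intCast_zmod_eq_zero_iff_dvd _ _).2 hqS'
  have hne : p ≠ q := by
    rintro rfl
    have : Fact p.Prime := ⟨hp⟩
    have h3 := congrArg (Int.cast : ℤ → ZMod p) h1
    rw [Int.cast_mul, hq0] at h3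
    push_cast at h3
    rw [ZMod.pow_card] at h3
    exact hpn ((ZMod.natCast_eq_zero_iff k p).1 (by linear_combination h3))
  refine ⟨p, q, hp, hq, hne, hpn, fun hqk => ?_, hqS'.trans (Dvd.intro _ h1)⟩
  have h3 : (k : ZMod q) = 0 := (ZMod.natCast_eq_zero_iff k q).2 hqk
  rw [hS] at hq0
  push_cast at hq0
  simp only [h3, sub_zero, one_pow, Finset.sum_const, Finset.card_range, nsmul_eq_mul,
    mul_one] at hq0
  exact hne ((Nat.prime_dvd_prime_iff_eq hq hp).1 ((ZMod.natCast_eq_zero_iff p q).1 hq0)).symm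

theorem more_primes (k m : ℕ) (hk : 0 < k) (hm : 0 < m) (hc : Nat.Coprime k m) (j : ℕ) :
    ∃ t : ℕ, 0 < t ∧ Nat.Coprime k (m * t) ∧
      (m * t).primeFactors.card = m.primeFactors.card + j := by
  induction j with
  | zero => exact ⟨1, one_pos, by simpa using hc, by simp⟩
  | succ j ih =>
    obtain ⟨t, ht, h1, h2⟩ := ih
    obtain ⟨l, hl, hp⟩ := Nat.exists_infinite_primes (k + m * t + 1)
    have hmt : 0 < m * t := Nat.mul_pos hm ht
    refine ⟨t * l, Nat.mul_pos ht hp.pos, ?_, ?_⟩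
    · rw [← mul_assoc]
      refine h1.mul_right (Nat.Coprime.symm (hp.coprime_iff_not_dvd.2 fun h => ?_))
      have := Nat.le_of_dvd hk h
      omega
    · rw [← mul_assoc, Nat.primeFactors_mul hmt.ne' hp.ne_zero, hp.primeFactors,
        Finset.card_union_of_disjoint, h2, Finset.card_singleton, add_assoc]
      rw [Finset.disjoint_singleton_right]
      intro h
      have := Nat.le_of_mem_primeFactors h
      omega

theorem moduli (k r : ℕ) (hk : 3 ≤ k) (hr : 2 ≤ r) :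
    ∃ N m : ℕ, 4 ≤ N ∧ 1 < m ∧ Nat.Coprime k N ∧ Nat.Coprime k m ∧
      (N : ℤ) ∣ (1 - k : ℤ) ^ m - 1 ∧ (N * (m * m)).primeFactors.card = r := by
  obtain ⟨p, q, hp, hq, hne, hpk, hqk, hd⟩ := two_primes k hk
  have cp : Nat.Coprime k p := (hp.coprime_iff_not_dvd.2 hpk).symm
  have cq : Nat.Coprime k q := (hq.coprime_iff_not_dvd.2 hqk).symm
  have hpq : 0 < p * q := Nat.mul_pos hp.pos hq.pos
  obtain ⟨t, ht, h1, h2⟩ := more_primes k (p * q) (by omega) hpq (cp.mul_right cq) (r - 2)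
  have h3 : (p * q).primeFactors.card = 2 := by
    rw [Nat.primeFactors_mul hp.ne_zero hq.ne_zero, hp.primeFactors, hq.primeFactors,
      Finset.card_union_of_disjoint (by simpa using hne)]
    simp
  have hq2 := hq.two_le
  have hm0 : 0 < p * q * t := Nat.mul_pos hpq ht
  refine ⟨q * q, p * q * t, by nlinarith, ?_, cq.mul_right cq, h1, ?_, ?_⟩
  · have := hp.two_le
    have h4 : 2 * 1 * 1 ≤ p * q * t := Nat.mul_le_mul (Nat.mul_le_mul this (by omega)) ht
    omega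
  · have h4 := dvd_sub_pow_of_dvd_sub hd 1
    rw [pow_one, one_pow, ← pow_mul] at h4
    have h5 := sub_dvd_pow_sub_pow ((1 - k : ℤ) ^ (p * q)) 1 t
    rw [one_pow, ← pow_mul] at h5
    refine Dvd.dvd.trans ?_ (h4.trans h5)
    push_cast
    rw [pow_two]
  · rw [Nat.primeFactors_mul (Nat.mul_pos hq.pos hq.pos).ne' (Nat.mul_pos hm0 hm0).ne',
      Nat.primeFactors_mul hq.ne_zero hq.ne_zero, Nat.primeFactors_mul hm0.ne' hm0.ne',
      Finset.union_self, Finset.union_self, Finset.union_eq_right.2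
        (Nat.primeFactors_mono ⟨p * t, by ring⟩ hm0.ne'), h2, h3]
    omega

end Pool.Agent.P.MP_6d14ae_al
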