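import Mathlib

/- Cycle sets: no left multiplication of an indecomposable finite cycle set has order 1 or 2 prime to the size. -/

namespace Pool.Agent.P.MP_6d14ae_al

open Equiv

variable {X : Type} [Fintype X] {σ : X → Perm X}

/-- a property that every left multiplication preserves is also reflected (finite case) -/
theorem refl_of_pres (f : Perm X) (P : X → Prop) (h : ∀ u, P u → P (f u)) (u : X) (hu : P (f u)) :
    P u := by
  have := Perm.perm_symm_on_of_perm_on_finite (f := f) (p := P) (fun x hx => h x hx) hu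
  simpa using this

/-- in an indecomposable finite cycle set an invariant nonempty property holds everywhere -/
theorem all_of_indec
    (hI : ¬ ∃ Y Z : Set X, Y.Nonempty ∧ Z.Nonempty ∧ Disjoint Y Z ∧ Y ∪ Z = Set.univ ∧
      (∀ y ∈ Y, ∀ z ∈ Z, σ y z ∈ Z) ∧ (∀ z ∈ Z, ∀ y ∈ Y, σ z y ∈ Y))
    (P : X → Prop) (h : ∀ z u, P u → P (σ z u)) (x : X) (hx : P x) (u : X) : P u := by
  by_contra hu
  refine hI ⟨{y | P y}, {y | ¬ P y}, ⟨x, hx⟩, ⟨u, hu⟩, ?_, ?_, ?_, ?_⟩
  · exact Set.disjoint_left.2 fun a ha hb => hb ha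
  · ext a; simp [em]
  · intro y _ z hz hp
    exact hz (refl_of_pres (σ y) P (h y) z hp)
  · intro z _ y hy
    exact h z y hy

/-- conversely, if every invariant property is constant the cycle set is indecomposable -/
theorem indec_of_const
    (H : ∀ P : X → Prop, (∀ z u, P u ↔ P (σ z u)) → ∀ u v, P u → P v) :
    ¬ ∃ Y Z : Set X, Y.Nonempty ∧ Z.Nonempty ∧ Disjoint Y Z ∧ Y ∪ Z = Set.univ ∧
      (∀ y ∈ Y, ∀ z ∈ Z, σ y z ∈ Z) ∧ (∀ z ∈ Z, ∀ y ∈ Y, σ z y ∈ Y) := by
  rintro ⟨Y, Z, ⟨y, hy⟩, ⟨z, hz⟩, hd, hu, h1, h2⟩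
  have hc : ∀ a, a ∈ Z ↔ a ∉ Y := by
    intro a
    constructor
    · intro ha hb
      exact Set.disjoint_left.1 hd hb ha
    · intro ha
      have : a ∈ Y ∪ Z := hu ▸ Set.mem_univ a
      exact this.resolve_left ha
  have key : ∀ a u, u ∈ Y ↔ σ a u ∈ Y := by
    intro a u
    by_cases ha : a ∈ Y
    · have hp : ∀ u, u ∈ Z → σ a u ∈ Z := fun u hu => h1 a ha u hu
      have := refl_of_pres (σ a) (· ∈ Z) hp u
      have h3 := hp u
      rw [hc, hc] at this h3
      tauto
    · have hp : ∀ u, u ∈ Y → σ a u ∈ Y := fun u hu => h2 a ((hc a).2 ha) u hu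
      exact ⟨hp u, refl_of_pres (σ a) (· ∈ Y) hp u⟩
  exact (hc z).1 hz (H (· ∈ Y) key y z hy)

section
variable (ax : ∀ x y z, σ (σ x y) (σ x z) = σ (σ y x) (σ y z))
include ax

omit [Fintype X] in
theorem ax' (x y : X) : σ (σ x y) * σ x = σ (σ y x) * σ y := by
  ext z; simpa using ax x y z

omit [Fintype X] in
theorem congr_pres (z y y' : X) (h : σ y = σ y') : σ (σ z y) = σ (σ z y') := by
  have h1 := ax' ax z y
  have h2 := ax' ax z y'
  rw [h, ← h2] at h1
  exact mul_right_cancel h1

omit [Fintype X] in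
theorem rel_pres (z x y : X) (h : σ (σ x y) * σ x = 1) :
    σ (σ (σ z x) (σ z y)) * σ (σ z x) = 1 := by
  have h1 := ax' ax z x
  have h2 := ax' ax (σ x z) (σ x y)
  have h3 : σ (σ x y) (σ x z) = z := by
    have := congrArg (fun g : Perm X => g z) h
    simpa using this
  have h4 : σ (σ (σ z x) (σ z y)) * σ (σ z x) * σ z = 1 * σ z := by
    rw [mul_assoc, h1, ax z x y, ← mul_assoc, h2, h3, mul_assoc, h, mul_one, one_mul]
  exact mul_right_cancel h4

theorem congr_refl (z y y' : X) (h : σ (σ z y) = σ (σ z y')) : σ y = σ y' := by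
  let f : Perm (X × X) := Equiv.prodCongr (σ z) (σ z)
  exact refl_of_pres f (fun p => σ p.1 = σ p.2) (fun p hp => congr_pres ax z p.1 p.2 hp) (y, y') h

end

section
variable (ax : ∀ x y z, σ (σ x y) (σ x z) = σ (σ y x) (σ y z))
  (tr : ∀ P : X → Prop, (∀ z u, P u → P (σ z u)) → ∀ x, P x → ∀ u, P u)
include ax tr

omit [Fintype X] in
theorem not_one [Nontrivial X] (x : X) : σ x ≠ 1 := by
  intro hx
  have h1 : ∀ u, σ u = 1 := by
    refine tr (fun u => σ u = 1) (fun z u hu => ?_) x hx
    have := ax' ax z u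
    rw [hu] at this
    simpa using this
  obtain ⟨y, hy⟩ := exists_ne x
  exact hy (tr (fun u => u = x) (fun z u hu => by simp [h1 z, hu]) x rfl y)

open Classical in
theorem fiber_const (x u : X) :
    (Finset.univ.filter fun y => σ y = σ u).card = (Finset.univ.filter fun y => σ y = σ x).card := by
  refine tr (fun u => (Finset.univ.filter fun y => σ y = σ u).card =
    (Finset.univ.filter fun y => σ y = σ x).card) (fun z u hu => ?_) x rfl u
  rw [← hu]
  symm
  refine Finset.card_bijective (σ z) (σ z).bijective fun y => ?_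
  simp only [Finset.mem_filter, Finset.mem_univ, true_and]
  exact ⟨congr_pres ax z y u, congr_refl ax z y u⟩

open Classical in
theorem fiber_dvd (x : X) :
    (Finset.univ.filter fun y => σ y = σ x).card ∣ Fintype.card X := by
  have h := Finset.card_eq_sum_card_image σ (Finset.univ : Finset X)
  rw [Finset.card_univ] at h
  rw [h]
  refine Finset.dvd_sum fun g hg => ?_
  obtain ⟨u, -, rfl⟩ := Finset.mem_image.1 hg
  rw [← fiber_const ax tr x u]

theorem self_rel (hodd : Odd (Fintype.card X)) (x : X) (hx : σ x * σ x = 1) (u : X) :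
    σ (σ u u) * σ u = 1 := by
  classical
  have part : ∀ a, ∃ b, σ (σ a b) * σ a = 1 := by
    refine tr (fun a => ∃ b, σ (σ a b) * σ a = 1) (fun z a ⟨b, hb⟩ => ⟨σ z b, rel_pres ax z a b hb⟩) x
      ⟨(σ x)⁻¹ x, by simpa using hx⟩
  set f := (Finset.univ.filter fun y => σ y = σ x).card with hf
  have hfo : Odd f := hodd.of_dvd_nat (fiber_dvd ax tr x)
  have cnt : ∀ a, Fintype.card {b // σ (σ a b) * σ a = 1} = f := by
    intro a
    obtain ⟨b, hb⟩ := part a
    rw [Fintype.card_subtype, hf, ← fiber_const ax tr x b]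
    congr 1
    ext c
    simp only [Finset.mem_filter, Finset.mem_univ, true_and]
    constructor
    · intro hc
      exact congr_refl ax a c b (mul_right_cancel (hc.trans hb.symm))
    · intro hc
      rw [congr_pres ax a c b hc, hb]
  let T := {p : X × X // σ (σ p.1 p.2) * σ p.1 = 1}
  have hT : Fintype.card T = Fintype.card X * f := by
    have e : T ≃ (Σ a : X, {b // σ (σ a b) * σ a = 1}) :=
      { toFun := fun p => ⟨p.1.1, p.1.2, p.2⟩
        invFun := fun p => ⟨(p.1, p.2.1), p.2.2⟩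
        left_inv := fun _ => rfl
        right_inv := fun _ => rfl }
    rw [Fintype.card_congr e, Fintype.card_sigma]
    simp [cnt]
  let s : Perm T :=
    { toFun := fun p => ⟨(p.1.2, p.1.1), by rw [← ax' ax]; exact p.2⟩
      invFun := fun p => ⟨(p.1.2, p.1.1), by rw [← ax' ax]; exact p.2⟩
      left_inv := fun _ => rfl
      right_inv := fun _ => rfl }
  have hs : s ^ 2 ^ 1 = 1 := by
    ext p <;> rfl
  have : Fact (Nat.Prime 2) := ⟨Nat.prime_two⟩
  have hn : ¬ 2 ∣ Fintype.card T := by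
    rw [hT]
    exact (hodd.mul hfo).not_two_dvd_nat
  obtain ⟨p, hp⟩ := Perm.exists_fixed_point_of_prime hn hs
  have h21 : p.1.2 = p.1.1 := congrArg (fun q : T => q.1.1) hp
  have h0 : σ (σ p.1.1 p.1.1) * σ p.1.1 = 1 := by
    have := p.2
    rwa [h21] at this
  exact tr (fun a => σ (σ a a) * σ a = 1) (fun z a ha => rel_pres ax z a a ha) _ h0 u

omit tr in
theorem card_two_pow (hR : ∀ u, σ (σ u u) * σ u = 1) :
    ∃ n, Nat.card (Subgroup.closure (Set.range σ)) = 2 ^ n := by
  classical
  set G := Subgroup.closure (Set.range σ) with hG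
  have hm : ∀ y, σ y ∈ G := fun y => Subgroup.subset_closure ⟨y, rfl⟩
  let a : X → G → G := fun x g => ⟨σ (g.1 x), hm _⟩ * g
  have ha : ∀ x, Function.Involutive (a x) := by
    intro x g
    apply Subtype.ext
    show σ ((σ (g.1 x) * g.1) x) * (σ (g.1 x) * g.1) = g.1
    rw [← mul_assoc, Perm.mul_apply, hR, one_mul]
  let A : X → Perm G := fun x => (ha x).toPerm
  have hA2 : ∀ x, A x * A x = 1 := fun x => by
    ext g : 1
    exact ha x g
  have hAc : ∀ x y, A x * A y = A y * A x := by
    intro x y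
    ext g : 1
    apply Subtype.ext
    show σ ((σ (g.1 y) * g.1) x) * (σ (g.1 y) * g.1) = σ ((σ (g.1 x) * g.1) y) * (σ (g.1 x) * g.1)
    rw [← mul_assoc, ← mul_assoc, Perm.mul_apply, Perm.mul_apply, ax' ax]
  set E := Subgroup.closure (Set.range A) with hE
  have hc1 : ∀ x, ∀ e ∈ E, A x * e = e * A x := by
    intro x e he
    induction he using Subgroup.closure_induction with
    | mem b hb => obtain ⟨y, rfl⟩ := hb; exact hAc x y
    | one => simp
    | mul b c _ _ hb hc => rw [← mul_assoc, hb, mul_assoc, hc, mul_assoc]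
    | inv b _ hb => exact (Commute.inv_right hb)
  have hc2 : ∀ e ∈ E, ∀ e' ∈ E, e * e' = e' * e := by
    intro e he e' he'
    induction he using Subgroup.closure_induction with
    | mem b hb => obtain ⟨y, rfl⟩ := hb; exact hc1 y e' he'
    | one => simp
    | mul b c _ _ hb hc => rw [mul_assoc, hc, ← mul_assoc, hb, mul_assoc]
    | inv b _ hb => exact (Commute.inv_left hb)
  have hsq : ∀ e ∈ E, e * e = 1 := by
    intro e he
    induction he using Subgroup.closure_induction with
    | mem b hb => obtain ⟨y, rfl⟩ := hb; exact hA2 y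
    | one => simp
    | mul b c hb' hc' hb hc =>
      calc b * c * (b * c) = b * (c * b) * c := by group
        _ = (b * b) * (c * c) := by rw [hc2 c hc' b hb']; group
        _ = 1 := by rw [hb, hc, one_mul]
    | inv b _ hb => rw [← mul_inv_rev, hb, inv_one]
  have : Fact (Nat.Prime 2) := ⟨Nat.prime_two⟩
  have hP : IsPGroup 2 E := by
    intro e
    refine ⟨1, Subtype.ext ?_⟩
    simpa [pow_two] using hsq e.1 e.2
  have hall : ∀ g : G, g ∈ MulAction.orbit E (1 : G) := by
    have step : ∀ (y : X) (g : G), g ∈ MulAction.orbit E (1 : G) →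
        (⟨σ y, hm y⟩ * g : G) ∈ MulAction.orbit E (1 : G) := by
      rintro y g ⟨e, he⟩
      refine ⟨⟨A (g.1⁻¹ y), Subgroup.subset_closure ⟨_, rfl⟩⟩ * e, ?_⟩
      show (⟨A (g.1⁻¹ y), _⟩ * e : E) • (1 : G) = _
      have he' : e • (1 : G) = g := he
      rw [mul_smul, he']
      apply Subtype.ext
      show σ (g.1 (g.1⁻¹ y)) * g.1 = σ y * g.1
      simp
    rintro ⟨g, hg⟩
    induction hg using Subgroup.closure_induction_left with
    | one => exact MulAction.mem_orbit_self _
    | mul_left b hb c hc ih =>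
      obtain ⟨y, rfl⟩ := hb
      exact step y ⟨c, hc⟩ ih
    | inv_mul_cancel b hb c hc ih =>
      obtain ⟨y, rfl⟩ := hb
      have h1 : (σ y)⁻¹ = σ (σ y y) := (eq_inv_of_mul_eq_one_left (hR y)).symm
      have := step (σ y y) ⟨c, hc⟩ ih
      convert this using 1
      apply Subtype.ext
      show (σ y)⁻¹ * c = σ (σ y y) * c
      rw [h1]
  obtain ⟨n, hn⟩ := hP.card_orbit (1 : G)
  refine ⟨n, ?_⟩
  rw [← hn]
  have : MulAction.orbit E (1 : G) = Set.univ := Set.eq_univ_of_forall hall
  rw [this]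
  exact (Nat.card_congr (Equiv.Set.univ G)).symm

omit ax in
theorem card_dvd (x : X) : Fintype.card X ∣ Nat.card (Subgroup.closure (Set.range σ)) := by
  classical
  set G := Subgroup.closure (Set.range σ) with hG
  have hm : ∀ y, σ y ∈ G := fun y => Subgroup.subset_closure ⟨y, rfl⟩
  have hall : ∀ u, u ∈ MulAction.orbit G x := by
    refine tr (fun u => u ∈ MulAction.orbit G x) (fun z u ⟨g, hg⟩ => ⟨⟨σ z, hm z⟩ * g, ?_⟩) x
      (MulAction.mem_orbit_self x)
    have hg' : g • x = u := hg
    show (⟨σ z, hm z⟩ * g : G) • x = _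
    rw [mul_smul, hg']
    rfl
  have h1 : MulAction.orbit G x = Set.univ := Set.eq_univ_of_forall hall
  have h2 := MulAction.card_orbit_mul_card_stabilizer_eq_card_group G x
  have h3 : Nat.card (MulAction.orbit G x) = Fintype.card X := by
    rw [h1, Nat.card_congr (Equiv.Set.univ X), Nat.card_eq_fintype_card]
  rw [← h3, Nat.card_eq_fintype_card (α := G), ← h2, Nat.card_eq_fintype_card]
  exact Dvd.intro _ rfl

theorem not_two [Nontrivial X] (hodd : Odd (Fintype.card X)) (x : X) : σ x * σ x ≠ 1 := by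
  intro hx
  obtain ⟨n, hn⟩ := card_two_pow ax (self_rel ax tr hodd x hx)
  have h1 := card_dvd tr x
  rw [hn] at h1
  obtain ⟨j, -, hj⟩ := (Nat.dvd_prime_pow Nat.prime_two).1 h1
  have h2 : 1 < Fintype.card X := Fintype.one_lt_card
  rcases j with _ | j
  · omega
  · rw [hj] at hodd
    exact hodd.not_two_dvd_nat (dvd_pow_self 2 (Nat.succ_ne_zero j))

theorem three_le [Nontrivial X] (x : X) (hc : Nat.Coprime (orderOf (σ x)) (Fintype.card X)) :
    3 ≤ orderOf (σ x) := by
  by_contra hlt
  have h0 : 0 < orderOf (σ x) := orderOf_pos _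
  have h1 : orderOf (σ x) ≠ 1 := fun h => not_one ax tr x (orderOf_eq_one_iff.1 h)
  have h2 : orderOf (σ x) = 2 := by omega
  have h3 := pow_orderOf_eq_one (σ x)
  rw [h2] at h3 hc
  exact not_two ax tr (Nat.coprime_two_left.1 hc) x (by simpa [pow_two] using h3)

end

end Pool.Agent.P.MP_6d14ae_al
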