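import Pool.Agent.P.MP_6d14ae_al.J.Core

namespace Pool.Agent.P.MP_6d14ae_al.OrbitBase

open Pool.Agent.P.MP_6d14ae_al Pool.Agent.P.MP_6d14ae_al.J

theorem orbitBase (X : Type) [Fintype X] (σ : X → Equiv.Perm X)
    (ax : ∀ x y z, σ (σ x y) (σ x z) = σ (σ y x) (σ y z))
    (T : Subgroup (Equiv.Perm X)) (hT : T ≤ Subgroup.closure (Set.range σ)) (u : X)
    (hk : Nat.Coprime (MulAction.orbit T u).ncard (Fintype.card X))
    (γ : Equiv.Perm X) (hγ : γ ∈ Subgroup.closure (Set.range σ)) (h1 : γ ≠ 1)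
    (hfix : ∀ x, x ∉ MulAction.orbit T u → γ x = x) :
    ∃ Y Z : Set X, Y.Nonempty ∧ Z.Nonempty ∧ Disjoint Y Z ∧ Y ∪ Z = Set.univ ∧
      (∀ y ∈ Y, ∀ z ∈ Z, σ y z ∈ Z) ∧ (∀ z ∈ Z, ∀ y ∈ Y, σ z y ∈ Y) := by
  by_contra hI
  have : MulAction.IsPretransitive (GG σ) X := ⟨fun a v =>
    all_of_indec hI (fun v => ∃ g : GG σ, g • a = v)
      (fun z v ⟨g, hg⟩ => ⟨sg σ z * g, by rw [mul_smul, hg]; rfl⟩) a ⟨1, one_smul _ _⟩ v⟩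
  obtain ⟨E, _, _, κ, a, hκ, ha, hg, -⟩ := exists_brace ax
  have hf := Set.toFinite (MulAction.orbit T u)
  refine h1 (congrArg Subtype.val (core κ hκ a ha hg hf.toFinset
    (by rwa [← Set.ncard_eq_toFinset_card]) (fun v hv w hw => ?_) ⟨γ, hγ⟩
    fun x hx => hfix x fun h => hx (hf.mem_toFinset.2 h)))
  obtain ⟨s, rfl⟩ := hf.mem_toFinset.1 hv
  obtain ⟨t, rfl⟩ := hf.mem_toFinset.1 hw
  refine ⟨⟨(t * s⁻¹ : T), hT (t * s⁻¹).2⟩, ?_, fun x hx => hf.mem_toFinset.2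
    (MulAction.mem_orbit_of_mem_orbit (t * s⁻¹) (hf.mem_toFinset.1 hx))⟩
  show (t * s⁻¹) • s • u = t • u
  rw [mul_smul, inv_smul_smul]

end Pool.Agent.P.MP_6d14ae_al.OrbitBase
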