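import Mathlib
import Pool.Agent.P.MP_6d14ae_al.Nec

/- An indecomposable cycle set of size a power of p: p divides the order of every left multiplication. -/

namespace Pool.Agent.P.MP_6d14ae_al

open Equiv

theorem exists_dual (K V : Type) [Field K] [AddCommGroup V] [Module K V] (v : V) (hv : v ≠ 0) :
    ∃ f : V →+ K, f v ≠ 0 := by
  obtain ⟨f, hf⟩ := not_forall.1 (mt (Module.forall_dual_apply_eq_zero_iff K v).1 hv)
  exact ⟨f.toAddMonoidHom, hf⟩

theorem exists_hom (E : Type) [AddCommGroup E] [Finite E] (p : ℕ) [Fact p.Prime]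
    (h : p ∣ Nat.card E) : ∃ χ : E →+ ZMod p, χ ≠ 0 := by
  have hp : p.Prime := Fact.out
  obtain ⟨e, he⟩ := exists_prime_addOrderOf_dvd_card' p h
  let μ : E →+ E := nsmulAddMonoidHom p
  have hni : ¬ Function.Surjective μ := by
    intro hs
    have hi := Finite.injective_iff_surjective.2 hs
    have : μ e = μ 0 := by
      show p • e = p • (0 : E)
      rw [← he, addOrderOf_nsmul_eq_zero, nsmul_zero]
    rw [hi this, addOrderOf_zero] at he
    exact hp.one_lt.ne he
  obtain ⟨v, hv⟩ := not_forall.1 hni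
  let _ : Module (ZMod p) (E ⧸ μ.range) := QuotientAddGroup.zmodModule (fun x => ⟨x, rfl⟩)
  have hq : (QuotientAddGroup.mk v : E ⧸ μ.range) ≠ 0 := by
    intro h0
    exact hv ((QuotientAddGroup.eq_zero_iff v).1 h0)
  obtain ⟨f, hf⟩ := exists_dual (ZMod p) (E ⧸ μ.range) _ hq
  refine ⟨f.comp (QuotientAddGroup.mk' _), fun h0 => hf ?_⟩
  exact DFunLike.congr_fun h0 v

theorem sylow_trans {G X : Type} [Group G] [Finite G] [Finite X] [MulAction G X]
    [MulAction.IsPretransitive G X] (p a : ℕ) [Fact p.Prime] (hX : Nat.card X = p ^ a)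
    (S : Sylow p G) (x y : X) : ∃ s : S, s • x = y := by
  have hp : p.Prime := Fact.out
  have h1 : (MulAction.stabilizer G x).index = p ^ a := by
    rw [MulAction.index_stabilizer_of_transitive, hX]
  have h2 : MulAction.stabilizer (S : Subgroup G) x =
      (MulAction.stabilizer G x).subgroupOf (S : Subgroup G) := by
    ext; rfl
  have h3 : (MulAction.orbit (S : Subgroup G) x).ncard =
      (MulAction.stabilizer G x ⊓ (S : Subgroup G)).relIndex S := by
    rw [← MulAction.index_stabilizer, h2, Subgroup.inf_relIndex_right]; rfl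
  have h4 := Subgroup.relIndex_mul_index
    (inf_le_right : MulAction.stabilizer G x ⊓ (S : Subgroup G) ≤ S)
  have h5 := Subgroup.index_dvd_of_le
    (inf_le_left : MulAction.stabilizer G x ⊓ (S : Subgroup G) ≤ _)
  rw [← h4, ← h3, h1] at h5
  have h6 : Nat.Coprime (p ^ a) (S : Subgroup G).index :=
    Nat.Coprime.pow_left _ (hp.coprime_iff_not_dvd.2 S.not_dvd_index)
  have h7 := h6.dvd_of_dvd_mul_right h5
  have h8 : 0 < (MulAction.orbit (S : Subgroup G) x).ncard :=
    (Set.ncard_pos (Set.toFinite _)).2 ⟨x, MulAction.mem_orbit_self x⟩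
  have h9 : MulAction.orbit (S : Subgroup G) x = Set.univ := by
    refine Set.eq_of_subset_of_ncard_le (Set.subset_univ _) ?_
    rw [Set.ncard_univ, hX]
    exact Nat.le_of_dvd h8 h7
  have : y ∈ MulAction.orbit (S : Subgroup G) x := h9 ▸ Set.mem_univ y
  exact this

variable {X : Type} [Fintype X] {σ : X → Perm X}

/-- the group generated by the left multiplications -/
abbrev GG (σ : X → Perm X) : Subgroup (Perm X) := Subgroup.closure (Set.range σ)

/-- a left multiplication as an element of that group -/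
def sg (σ : X → Perm X) (y : X) : GG σ := ⟨σ y, Subgroup.subset_closure ⟨y, rfl⟩⟩

theorem GG_ind (P : GG σ → Prop) (h1 : P 1) (hs : ∀ y g, P g → P (sg σ y * g)) (g : GG σ) :
    P g := by
  classical
  let _ : Fintype (GG σ) := Fintype.ofFinite _
  obtain ⟨g, hg⟩ := g
  induction hg using Subgroup.closure_induction_left with
  | one => exact h1
  | mul_left b hb c hc ih =>
    obtain ⟨y, rfl⟩ := hb
    exact hs y ⟨c, hc⟩ ih
  | inv_mul_cancel b hb c hc ih =>
    obtain ⟨y, rfl⟩ := hb
    refine refl_of_pres (X := GG σ) (Equiv.mulLeft (sg σ y)) P (hs y) _ ?_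
    convert ih using 1
    apply Subtype.ext
    show σ y * ((σ y)⁻¹ * c) = c
    simp

variable (ax : ∀ x y z, σ (σ x y) (σ x z) = σ (σ y x) (σ y z))
include ax

theorem exists_cf (p : ℕ) [Fact p.Prime] (hd : p ∣ Nat.card (GG σ)) :
    ∃ (c : X → ZMod p) (f : GG σ → ZMod p), c ≠ 0 ∧
      ∀ (g : GG σ) x, f (sg σ (g.1 x) * g) = f g + c x := by
  classical
  let a : X → GG σ → GG σ := fun x g => sg σ (g.1 x) * g
  have hac : ∀ x y g, a x (a y g) = a y (a x g) := by
    intro x y g
    apply Subtype.ext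
    show σ ((σ (g.1 y) * g.1) x) * (σ (g.1 y) * g.1) = σ ((σ (g.1 x) * g.1) y) * (σ (g.1 x) * g.1)
    rw [← mul_assoc, ← mul_assoc, Perm.mul_apply, Perm.mul_apply, ax' ax]
  have hsa : ∀ y g, sg σ y * g = a (g.1⁻¹ y) g := by
    intro y g
    apply Subtype.ext
    show σ y * g.1 = σ (g.1 (g.1⁻¹ y)) * g.1
    simp
  have hsurj : ∀ x, Function.Surjective (a x) := by
    intro x g
    have : ∃ h, a x h = g * (a x 1)⁻¹ * a x 1 := by
      refine GG_ind (fun u => ∃ h, a x h = u * a x 1) ⟨1, by simp⟩ ?_ _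
      rintro y u ⟨h, hh⟩
      refine ⟨a ((u * a x 1).1⁻¹ y) h, ?_⟩
      rw [hac, hh, ← hsa, mul_assoc]
    simpa using this
  let A : X → Perm (GG σ) := fun x =>
    Equiv.ofBijective (a x) (Finite.surjective_iff_bijective.1 (hsurj x))
  have hAc : ∀ x y, A x * A y = A y * A x := by
    intro x y
    ext g : 1
    exact hac x y g
  set E := Subgroup.closure (Set.range A) with hE
  have hc1 : ∀ x, ∀ e ∈ E, A x * e = e * A x := by
    intro x e he
    induction he using Subgroup.closure_induction with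
    | mem b hb => obtain ⟨y, rfl⟩ := hb; exact hAc x y
    | one => simp
    | mul b c _ _ hb hc => rw [← mul_assoc, hb, mul_assoc, hc, mul_assoc]
    | inv b _ hb => exact (Commute.inv_right hb)
  have hc2 : ∀ e ∈ E, ∀ e' ∈ E, e * e' = e' * e := by
    intro e he e' he'
    induction he using Subgroup.closure_induction with
    | mem b hb => obtain ⟨y, rfl⟩ := hb; exact hc1 y e' he'
    | one => simp
    | mul b c _ _ hb hc => rw [mul_assoc, hc, ← mul_assoc, hb, mul_assoc]
    | inv b _ hb => exact (Commute.inv_left hb)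
  let AE : X → E := fun x => ⟨A x, Subgroup.subset_closure ⟨x, rfl⟩⟩
  let ev : E → GG σ := fun e => e.1 1
  have hev : ∀ x e, ev (AE x * e) = a x (ev e) := fun _ _ => rfl
  have hs : Function.Surjective ev := by
    refine GG_ind (fun g => ∃ e, ev e = g) ⟨1, rfl⟩ ?_
    rintro y g ⟨e, he⟩
    exact ⟨AE (g.1⁻¹ y) * e, by rw [hev, he, hsa]⟩
  have hi : Function.Injective ev := by
    intro e e' h
    apply Subtype.ext
    ext g : 1
    obtain ⟨u, rfl⟩ := hs g
    have h1 : e.1 (u.1 1) = u.1 (e.1 1) := congrArg (fun w : Perm (GG σ) => w 1) (hc2 _ e.2 _ u.2)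
    have h2 : e'.1 (u.1 1) = u.1 (e'.1 1) := congrArg (fun w : Perm (GG σ) => w 1) (hc2 _ e'.2 _ u.2)
    have h3 : e.1 1 = e'.1 1 := h
    show e.1 (u.1 1) = e'.1 (u.1 1)
    rw [h1, h2, h3]
  let eq : E ≃ GG σ := Equiv.ofBijective ev ⟨hi, hs⟩
  let _ : CommGroup E :=
    { (inferInstance : Group E) with mul_comm := fun e e' => Subtype.ext (hc2 _ e.2 _ e'.2) }
  obtain ⟨χ, hχ⟩ := exists_hom (Additive E) p (by
    rw [← Nat.card_congr eq] at hd
    exact hd)
  refine ⟨fun x => χ (Additive.ofMul (AE x)), fun g => χ (Additive.ofMul (eq.symm g)), ?_, ?_⟩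
  · intro h0
    apply hχ
    ext e
    obtain ⟨e, he⟩ := e
    show χ (Additive.ofMul ⟨e, he⟩) = 0
    induction he using Subgroup.closure_induction with
    | mem b hb => obtain ⟨y, rfl⟩ := hb; exact congrFun h0 y
    | one => exact χ.map_zero
    | mul b c hb' hc' hb hc =>
      have := χ.map_add (Additive.ofMul ⟨b, hb'⟩) (Additive.ofMul ⟨c, hc'⟩)
      rw [hb, hc, add_zero] at this
      exact this
    | inv b hb' hb =>
      have := χ.map_neg (Additive.ofMul ⟨b, hb'⟩)
      rw [hb, neg_zero] at this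
      exact this
  · intro g x
    have h1 : eq.symm (a x g) = AE x * eq.symm g := by
      apply eq.injective
      rw [eq.apply_symm_apply]
      show _ = a x (eq (eq.symm g))
      rw [eq.apply_symm_apply]
    show χ (Additive.ofMul (eq.symm (a x g))) = _
    rw [h1, ofMul_mul, χ.map_add, add_comm]

theorem dvd_order (tr : ∀ P : X → Prop, (∀ z u, P u → P (σ z u)) → ∀ x, P x → ∀ u, P u)
    (p a : ℕ) (hp : p.Prime) (ha : 0 < a) (hX : Fintype.card X = p ^ a) (x : X) :
    p ∣ orderOf (σ x) := by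
  classical
  have : Fact p.Prime := ⟨hp⟩
  have hd : p ∣ Nat.card (GG σ) :=
    (dvd_pow_self p ha.ne').trans (hX ▸ card_dvd tr x)
  obtain ⟨c0, f0, hc0, hf0⟩ := exists_cf ax p hd
  have : MulAction.IsPretransitive (GG σ) X := ⟨fun u v =>
    tr (fun v => ∃ g : GG σ, g • u = v)
      (fun z v ⟨g, hg⟩ => ⟨sg σ z * g, by rw [mul_smul, hg]; rfl⟩) u ⟨1, one_smul _ _⟩ v⟩
  obtain ⟨S⟩ : Nonempty (Sylow p (GG σ)) := inferInstance
  let Φ : AddSubgroup (X → ZMod p) :=
    { carrier := {c | ∃ f : GG σ → ZMod p, ∀ (g : GG σ) x, f (sg σ (g.1 x) * g) = f g + c x}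
      zero_mem' := ⟨0, by simp⟩
      add_mem' := by
        rintro c c' ⟨f, hf⟩ ⟨f', hf'⟩
        refine ⟨f + f', fun g x => ?_⟩
        simp only [Pi.add_apply, hf, hf']; ring
      neg_mem' := by
        rintro c ⟨f, hf⟩
        refine ⟨-f, fun g x => ?_⟩
        simp only [Pi.neg_apply, hf]; ring }
  have hinv : ∀ (s : GG σ) (c : Φ), (fun x => c.1 (s⁻¹ • x)) ∈ Φ := by
    rintro s ⟨c, f, hf⟩
    refine ⟨fun g => f (g * s), fun g x => ?_⟩
    have := hf (g * s) (s⁻¹ • x)
    have e : (g * s).1 (s⁻¹ • x) = g.1 x := by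
      show (g * s) • (s⁻¹ • x) = g • x
      rw [mul_smul, smul_inv_smul]
    rw [e] at this
    show f (sg σ (g.1 x) * g * s) = _
    rw [mul_assoc, this]
  let _ : MulAction S Φ :=
    { smul := fun s c => ⟨fun x => c.1 (s.1⁻¹ • x), hinv s.1 c⟩
      one_smul := fun c => Subtype.ext (funext fun x => by
        show c.1 (((1 : S) : GG σ)⁻¹ • x) = _
        simp)
      mul_smul := fun s t c => Subtype.ext (funext fun x => by
        show c.1 (((s * t : S) : GG σ)⁻¹ • x) = c.1 (t.1⁻¹ • s.1⁻¹ • x)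
        simp [mul_smul]) }
  have hΦ : p ∣ Nat.card Φ := by
    have h1 : addOrderOf (⟨c0, f0, hf0⟩ : Φ) = p := by
      refine addOrderOf_eq_prime ?_ (fun h => hc0 (congrArg Subtype.val h))
      apply Subtype.ext
      funext x
      simp
    have h2 := addOrderOf_dvd_natCard (⟨c0, f0, hf0⟩ : Φ)
    rwa [h1] at h2
  have h0 : (0 : Φ) ∈ MulAction.fixedPoints S Φ := fun s => rfl
  obtain ⟨⟨c, f, hf⟩, hb, hne⟩ :=
    S.isPGroup'.exists_fixed_point_of_prime_dvd_card_of_fixed_point Φ hΦ h0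
  have hconst : ∀ u v, c u = c v := by
    intro u v
    obtain ⟨s, rfl⟩ := sylow_trans p a (by rw [Nat.card_eq_fintype_card, hX]) S u v
    have h1 : c (s.1⁻¹ • s.1 • u) = c (s.1 • u) :=
      congrArg (fun w : Φ => w.1 (s.1 • u)) (hb s)
    rw [inv_smul_smul] at h1
    exact h1
  have hcx : c x ≠ 0 := fun h => hne (Subtype.ext (funext fun u => ((hconst u x).trans h).symm))
  have hpow : ∀ n : ℕ, f (sg σ x ^ n) = f 1 + n * c x := by
    intro n
    induction n with
    | zero => simp
    | succ n ih =>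
      have := hf (sg σ x ^ n) ((sg σ x ^ n).1⁻¹ x)
      have e : (sg σ x ^ n).1 ((sg σ x ^ n).1⁻¹ x) = x := by simp
      rw [e, ih, hconst ((sg σ x ^ n).1⁻¹ x) x] at this
      rw [pow_succ', this]; push_cast; ring
  have h1 : sg σ x ^ orderOf (σ x) = 1 := Subtype.ext (pow_orderOf_eq_one (σ x))
  have h2 := hpow (orderOf (σ x))
  rw [h1] at h2
  have h3 : (orderOf (σ x) : ZMod p) * c x = 0 := by linear_combination -h2
  exact (ZMod.natCast_eq_zero_iff _ _).1 ((mul_eq_zero.1 h3).resolve_right hcx)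

end Pool.Agent.P.MP_6d14ae_al
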