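import Mathlib
import Pool.Agent.P.MP_6d14ae_al.Nec

/- An indecomposable cycle set with a left multiplication of order k prime to the size, k at least 3. -/

namespace Pool.Agent.P.MP_6d14ae_al

open Equiv

section
variable {R M : Type} [CommRing R] [DecidableEq R] [CommRing M] (χ : M → R)

def dl (t c : R) : M := if t = c then 1 else 0

def F (t c : R) (j : M) : M := dl t c - dl t (c + χ j)

def be (a : R) (i : M) (c : R) (j : M) : M := F χ a c j - F χ (a + χ i) c j

omit [CommRing R] in
theorem dl_symm (t c : R) : (dl t c : M) = dl c t := by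
  unfold dl; simp [eq_comm]

omit [CommRing R] in
theorem dl_congr {t c t' c' : R} (h : t = c ↔ t' = c') : (dl t c : M) = dl t' c' := by
  unfold dl; simp [h]

theorem be_symm (a : R) (i : M) (c : R) (j : M) : be χ a i c j = be χ c j a i := by
  unfold be F
  rw [dl_symm a c, dl_symm a (c + χ j), dl_symm (a + χ i) c, dl_symm (a + χ i) (c + χ j)]
  ring

def opf (x y : R × M × M) : R × M × M :=
  (χ (-x.2.2) * (y.1 - χ x.2.1), y.2.1 - x.2.2, y.2.2 + be χ x.1 x.2.1 y.1 y.2.1)

def tau (t : R) (y : R × M × M) : R × M × M :=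
  (y.1 - t, y.2.1, y.2.2 + F χ 0 y.1 y.2.1 - F χ t y.1 y.2.1)

theorem F_shift (s t c : R) (j : M) : F χ s (c - t) j = F χ (s + t) c j := by
  unfold F
  rw [dl_congr (t := s) (c := c - t) (t' := s + t) (c' := c) eq_sub_iff_add_eq,
    dl_congr (t := s) (c := c - t + χ j) (t' := s + t) (c' := c + χ j)
      ⟨fun h => by rw [h]; ring, fun h => by linear_combination h⟩]

theorem tau_tau (s t : R) (y : R × M × M) : tau χ s (tau χ t y) = tau χ (s + t) y := by
  unfold tau
  refine Prod.ext (by simp; ring) (Prod.ext rfl ?_)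
  simp only [F_shift, zero_add]
  ring

theorem tau_zero (y : R × M × M) : tau χ 0 y = y := by
  unfold tau; simp

theorem tau_inj (t : R) {y y' : R × M × M} (h : tau χ t y = tau χ t y') : y = y' := by
  have := congrArg (tau χ (-t)) h
  rwa [tau_tau, tau_tau, neg_add_cancel, tau_zero, tau_zero] at this

variable (h0 : χ 0 = 1) (ha : ∀ i j, χ (i + j) = χ i * χ j)
include h0

theorem opf_tau (i : M) (y : R × M × M) : opf χ (0, i, 0) y = tau χ (χ i) y := by
  unfold opf tau be
  simp [h0, add_sub_assoc]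

include ha

omit [DecidableEq R] in
theorem chi_neg (m : M) : χ m * χ (-m) = 1 := by
  rw [← ha, add_neg_cancel, h0]

omit [DecidableEq R] in
theorem chi_cancel (m : M) {a b : R} : χ m * a = χ m * b ↔ a = b := by
  refine ⟨fun h => ?_, fun h => by rw [h]⟩
  have := chi_neg χ h0 ha m
  linear_combination χ (-m) * h - (a - b) * this

theorem be_inv (m : M) (s a : R) (i : M) (c : R) (j : M) :
    be χ (χ (-m) * (a - s)) (i - m) (χ (-m) * (c - s)) (j - m) = be χ a i c j := by
  have e : ∀ (a : R) (i : M), χ (-m) * (a - s) + χ (i - m) = χ (-m) * (a + χ i - s) := by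
    intro a i
    rw [sub_eq_add_neg i m, ha]; ring
  have d : ∀ a c : R, (dl (χ (-m) * (a - s)) (χ (-m) * (c - s)) : M) = dl a c := fun a c =>
    dl_congr ((chi_cancel χ h0 ha _).trans sub_left_inj)
  unfold be F
  rw [e, e, d, d, d, d]

theorem opf_ax (x y z : R × M × M) :
    opf χ (opf χ x y) (opf χ x z) = opf χ (opf χ y x) (opf χ y z) := by
  obtain ⟨a, i, m⟩ := x
  obtain ⟨c, j, n⟩ := y
  obtain ⟨e, l, r⟩ := z
  unfold opf
  simp only [be_inv χ h0 ha, be_symm χ c j a i]
  refine Prod.ext ?_ (Prod.ext ?_ ?_)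
  · simp only [neg_add, sub_eq_add_neg, ha]
    ring
  · simp only; ring
  · simp only; ring

def opE (x : R × M × M) : Perm (R × M × M) where
  toFun := opf χ x
  invFun y := (χ x.2.2 * y.1 + χ x.2.1, y.2.1 + x.2.2,
    y.2.2 - be χ x.1 x.2.1 (χ x.2.2 * y.1 + χ x.2.1) (y.2.1 + x.2.2))
  left_inv y := by
    have h : χ x.2.2 * (χ (-x.2.2) * (y.1 - χ x.2.1)) + χ x.2.1 = y.1 := by
      linear_combination (y.1 - χ x.2.1) * chi_neg χ h0 ha x.2.2
    unfold opf
    simp only [h, sub_add_cancel, add_sub_cancel_right]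
  right_inv y := by
    have h : χ (-x.2.2) * (χ x.2.2 * y.1) = y.1 := by
      linear_combination y.1 * chi_neg χ h0 ha x.2.2
    unfold opf
    simp only [h, sub_add_cancel, add_sub_cancel_right]

theorem const_of_opf (h1 : (1 : R) ≠ 0) (h2 : (2 : R) ≠ 0) (h3 : (3 : R) ≠ 0)
    (hR : ∀ c : R, ∃ n : ℕ, c = n * (1 - χ 1)) (hM : ∀ j : M, ∃ n : ℕ, j = n)
    (Q : R × M × M → Prop) (hQ : ∀ z z' u u', opf χ z u = opf χ z' u' → (Q u ↔ Q u'))
    (u v : R × M × M) : Q u ↔ Q v := by
  have nz : ∀ (j : M) (b : R), b ≠ 0 → b * χ j ≠ 0 := by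
    intro j b hb h
    exact hb ((chi_cancel χ h0 ha j).1 (by rw [mul_comm, h, mul_zero]))
  have s1 : ∀ c j n, Q (c, j, n) ↔ Q (c, j, n + 1) := by
    intro c j n
    refine hQ (c + 2 * χ j, j, 0) (c + χ j, j, 0) _ _ ?_
    have a1 := nz j 1 h1
    have a2 := nz j 2 h2
    have a3 := nz j 3 h3
    have b1 : c + 2 * χ j ≠ c := fun h => a2 (by linear_combination h)
    have b2 : c + 2 * χ j ≠ c + χ j := fun h => a1 (by linear_combination h)
    have b3 : c + 2 * χ j + χ j ≠ c := fun h => a3 (by linear_combination h)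
    have b4 : c + 2 * χ j + χ j ≠ c + χ j := fun h => a2 (by linear_combination h)
    have b5 : c + χ j ≠ c := fun h => a1 (by linear_combination h)
    have b6 : c + χ j + χ j ≠ c := fun h => a2 (by linear_combination h)
    have b7 : c + χ j + χ j ≠ c + χ j := fun h => a1 (by linear_combination h)
    unfold opf be F dl
    simp only [if_neg b1, if_neg b2, if_neg b3, if_neg b4, if_neg b5, if_neg b6, if_neg b7, if_true]
    refine Prod.ext rfl (Prod.ext rfl ?_)
    simp
  have s2 : ∀ c j n, Q (c, j, n) ↔ Q (c, j, 0) := by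
    intro c j n
    obtain ⟨n, rfl⟩ := hM n
    induction n with
    | zero => simp
    | succ n ih => rw [Nat.cast_succ, ← s1, ih]
  have s3 : ∀ c j, Q (c, j, 0) ↔ Q (c + (1 - χ 1), j, 0) := by
    intro c j
    rw [← s2 c j (-be χ 0 1 c j), ← s2 (c + (1 - χ 1)) j (-be χ 0 0 (c + (1 - χ 1)) j)]
    refine hQ (0, 1, 0) (0, 0, 0) _ _ ?_
    unfold opf
    refine Prod.ext ?_ (Prod.ext rfl ?_)
    · simp only [h0]; ring
    · simp
  have s4 : ∀ c j, Q (c, j, 0) ↔ Q (0, j, 0) := by
    intro c j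
    obtain ⟨n, rfl⟩ := hR c
    induction n with
    | zero => simp
    | succ n ih => rw [Nat.cast_succ, add_mul, one_mul, ← s3, ih]
  have s5 : ∀ j, Q (0, j, 0) ↔ Q (0, j + 1, 0) := by
    intro j
    rw [← s4 1 j, ← s4 1 (j + 1), ← s2 1 j (-be χ 0 0 1 j), ← s2 1 (j + 1) (-be χ 0 0 1 (j + 1))]
    refine hQ (0, 0, 0) (0, 0, 1) _ _ ?_
    unfold opf
    simp [h0]
  have s6 : ∀ j, Q (0, j, 0) ↔ Q (0, 0, 0) := by
    intro j
    obtain ⟨n, rfl⟩ := hM j
    induction n with
    | zero => simp
    | succ n ih => rw [Nat.cast_succ, ← s5, ih]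
  obtain ⟨c, j, n⟩ := u
  obtain ⟨c', j', n'⟩ := v
  rw [s2, s4, s6, s2 c', s4 c', s6 j']

/-- the twisted power -/
def tw (k : ℕ) (x : ZMod k → R × M × M) : Perm (ZMod k → R × M × M) where
  toFun y r := opf χ (x (r + 1)) (y (r + 1))
  invFun y r := (opE χ h0 ha (x r)).symm (y (r - 1))
  left_inv y := by
    funext r
    simp only [sub_add_cancel]
    exact (opE χ h0 ha (x r)).symm_apply_apply (y r)
  right_inv y := by
    funext r
    simp only [add_sub_cancel_right]
    exact (opE χ h0 ha (x (r + 1))).apply_symm_apply (y r)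

theorem tw_apply (k : ℕ) (x y : ZMod k → R × M × M) (r : ZMod k) :
    tw χ h0 ha k x y r = opf χ (x (r + 1)) (y (r + 1)) := rfl

theorem tw_ax (k : ℕ) (x y z : ZMod k → R × M × M) :
    tw χ h0 ha k (tw χ h0 ha k x y) (tw χ h0 ha k x z) =
      tw χ h0 ha k (tw χ h0 ha k y x) (tw χ h0 ha k y z) := by
  funext r
  simp only [tw_apply]
  exact opf_ax χ h0 ha _ _ _

theorem tw_const (h1 : (1 : R) ≠ 0) (h2 : (2 : R) ≠ 0) (h3 : (3 : R) ≠ 0)
    (hR : ∀ c : R, ∃ n : ℕ, c = n * (1 - χ 1)) (hM : ∀ j : M, ∃ n : ℕ, j = n)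
    (k : ℕ) [NeZero k] (P : (ZMod k → R × M × M) → Prop)
    (hP : ∀ z u, P u ↔ P (tw χ h0 ha k z u)) (u v : ZMod k → R × M × M) (hu : P u) : P v := by
  have key : ∀ (y : ZMod k → R × M × M) (r : ZMod k) (a b : R × M × M),
      P (Function.update y r a) ↔ P (Function.update y r b) := by
    intro y r
    refine const_of_opf χ h0 ha h1 h2 h3 hR hM (fun a => P (Function.update y r a)) ?_
    intro z z' a a' h
    show P (Function.update y r a) ↔ P (Function.update y r a')
    rw [hP (Function.update y r z), hP (Function.update y r z') (Function.update y r a')]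
    have : tw χ h0 ha k (Function.update y r z) (Function.update y r a) =
        tw χ h0 ha k (Function.update y r z') (Function.update y r a') := by
      funext s
      simp only [tw_apply]
      by_cases hs : s + 1 = r
      · rw [hs]; simpa using h
      · simp only [Function.update_of_ne hs]
    rw [this]
  have ind : ∀ s : Finset (ZMod k), P (s.piecewise v u) := by
    intro s
    induction s using Finset.induction_on with
    | empty => simpa using hu
    | insert r s hr ih =>
      rw [Finset.piecewise_insert, key _ r _ (s.piecewise v u r), Function.update_eq_self]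
      exact ih
  simpa using ind Finset.univ

/-- the point whose left multiplication has order k -/
def x0 (k : ℕ) : ZMod k → R × M × M := fun r => (0, if r = 0 then 1 else 0, 0)

theorem tw_x0 (k : ℕ) [NeZero k] (hk : 1 < k) (hd : χ 1 = 1 - k) (y : ZMod k → R × M × M)
    (r : ZMod k) :
    tw χ h0 ha k (x0 k) y r = tau χ (((r + 1).val : R) - r.val) (y (r + 1)) := by
  rw [tw_apply, x0, opf_tau χ h0]
  congr 1
  have : Fact (1 < k) := ⟨hk⟩
  have hv := ZMod.val_add r 1
  rw [ZMod.val_one] at hv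
  have hl := ZMod.val_lt r
  by_cases h : r + 1 = 0
  · rw [if_pos h, hd, h, ZMod.val_zero]
    rw [h, ZMod.val_zero] at hv
    have h5 : r.val + 1 = k := by
      by_contra hne
      rw [Nat.mod_eq_of_lt (by omega)] at hv
      omega
    have h6 : (k : R) = r.val + 1 := by
      have := congrArg (Nat.cast : ℕ → R) h5
      push_cast at this
      exact this.symm
    rw [h6]; push_cast; ring
  · rw [if_neg h, h0, hv]
    have h5 : r.val + 1 < k := by
      by_contra hne
      have h7 : r.val + 1 = k := by omega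
      rw [h7, Nat.mod_self] at hv
      exact h ((ZMod.val_eq_zero _).1 hv)
    rw [Nat.mod_eq_of_lt h5]; push_cast; ring

theorem tw_x0_pow (k : ℕ) [NeZero k] (hk : 1 < k) (hd : χ 1 = 1 - k) (s : ℕ)
    (y : ZMod k → R × M × M) (r : ZMod k) :
    (tw χ h0 ha k (x0 k) ^ s) y r = tau χ (((r + s).val : R) - r.val) (y (r + s)) := by
  induction s generalizing r with
  | zero => simp [tau_zero]
  | succ s ih =>
    rw [pow_succ', Perm.mul_apply, tw_x0 χ h0 ha k hk hd, ih, tau_tau]
    have : r + 1 + (s : ZMod k) = r + ((s + 1 : ℕ) : ZMod k) := by push_cast; ring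
    rw [this]
    congr 1
    ring

theorem tw_x0_order [Nontrivial M] (k : ℕ) [NeZero k] (hk : 1 < k) (hd : χ 1 = 1 - k) :
    orderOf (tw χ h0 ha k (x0 k)) = k ∧
      ∃ y, Function.minimalPeriod (tw χ h0 ha k (x0 k)) y = k := by
  have hpow : tw χ h0 ha k (x0 k) ^ k = 1 := by
    ext y r : 2
    rw [tw_x0_pow χ h0 ha k hk hd]
    simp [tau_zero]
  let y : ZMod k → R × M × M := fun r => tau χ (-(r.val : R)) (x0 k r)
  have hy : ∀ s : ℕ, (tw χ h0 ha k (x0 k) ^ s) y = y → k ∣ s := by
    intro s hs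
    have h := congrFun hs 0
    rw [tw_x0_pow χ h0 ha k hk hd] at h
    simp only [y, tau_tau, zero_add, ZMod.val_zero, Nat.cast_zero, sub_zero, add_neg_cancel,
      neg_zero, tau_zero] at h
    have h2 : (if (s : ZMod k) = 0 then (1 : M) else 0) = 1 := by
      simpa [x0] using congrArg (fun p => p.2.1) h
    by_contra hn
    rw [if_neg (fun h => hn ((ZMod.natCast_eq_zero_iff s k).1 h))] at h2
    exact zero_ne_one h2
  refine ⟨Nat.dvd_antisymm (orderOf_dvd_of_pow_eq_one hpow) (hy _ (by rw [pow_orderOf_eq_one]; rfl)),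
    y, Nat.dvd_antisymm ?_ (hy _ ?_)⟩
  · refine Function.IsPeriodicPt.minimalPeriod_dvd ?_
    show (tw χ h0 ha k (x0 k))^[k] y = y
    rw [← Perm.coe_pow, hpow]; rfl
  · rw [Perm.coe_pow]
    exact Function.iterate_minimalPeriod

end

end Pool.Agent.P.MP_6d14ae_al
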