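import Mathlib
import Pool.Agent.P.MP_6d14ae_al.Twist
import Pool.Agent.P.MP_6d14ae_al.Ppw
import Pool.Agent.P.MP_6d14ae_al.Arith

namespace Pool.Agent.P.MP_6d14ae_al

theorem ordSw (k r : ℕ) (withCycle : Prop) :
    (∃ (X : Type) (_ : Fintype X) (_ : Nontrivial X) (σ : X → Equiv.Perm X),
      (∀ x y z, σ (σ x y) (σ x z) = σ (σ y x) (σ y z)) ∧
      (¬ ∃ Y Z : Set X, Y.Nonempty ∧ Z.Nonempty ∧ Disjoint Y Z ∧ Y ∪ Z = Set.univ ∧
        (∀ y ∈ Y, ∀ z ∈ Z, σ y z ∈ Z) ∧ (∀ z ∈ Z, ∀ y ∈ Y, σ z y ∈ Y)) ∧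
      (Fintype.card X).primeFactors.card = r ∧
      ∃ x, orderOf (σ x) = k ∧ Nat.Coprime k (Fintype.card X) ∧
        (withCycle → ∃ y, Function.minimalPeriod (σ x) y = k)) ↔ 3 ≤ k ∧ 2 ≤ r := by
  constructor
  · rintro ⟨X, _, _, σ, ax, hI, rfl, x, rfl, hc, -⟩
    refine ⟨three_le ax (all_of_indec hI) x hc, ?_⟩
    by_contra hlt
    have h1 : 1 < Fintype.card X := Fintype.one_lt_card
    have h2 : 0 < (Fintype.card X).primeFactors.card :=
      Finset.card_pos.2 (Nat.nonempty_primeFactors.2 h1)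
    obtain ⟨p, a, hp, ha, hX⟩ := (isPrimePow_nat_iff _).1
      (isPrimePow_iff_card_primeFactors_eq_one.2 (by omega : (Fintype.card X).primeFactors.card = 1))
    have h3 := dvd_order ax (all_of_indec hI) p a hp ha hX.symm x
    have h4 : p ∣ Fintype.card X := hX ▸ dvd_pow_self p ha.ne'
    exact hp.one_lt.ne' (Nat.eq_one_of_dvd_coprimes hc h3 h4)
  · rintro ⟨hk, hr⟩
    obtain ⟨N, m, h4, hm, hcop, hcm, hdvd, hcard⟩ := moduli k r hk hr
    have : NeZero N := ⟨by omega⟩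
    have : NeZero k := ⟨by omega⟩
    have : Fact (1 < m) := ⟨hm⟩
    have hd : (1 - k : ZMod N) ^ m = 1 := by
      have h := (ZMod.intCast_zmod_eq_zero_iff_dvd _ N).2 hdvd
      push_cast at h
      linear_combination h
    let χ : ZMod m → ZMod N := fun i => (1 - k : ZMod N) ^ i.val
    have h0 : χ 0 = 1 := by simp [χ]
    have ha : ∀ i j, χ (i + j) = χ i * χ j := by
      intro i j
      simp only [χ]
      rw [ZMod.val_add, ← pow_eq_pow_mod _ hd, pow_add]
    have h1 : χ 1 = 1 - k := by simp only [χ]; rw [ZMod.val_one, pow_one]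
    have nz : ∀ a : ℕ, 0 < a → a < 4 → (a : ZMod N) ≠ 0 := by
      intro a h h' e
      have := Nat.le_of_dvd h ((ZMod.natCast_eq_zero_iff a N).1 e)
      omega
    have hR : ∀ c : ZMod N, ∃ n : ℕ, c = n * (1 - χ 1) := by
      intro c
      refine ⟨(c * (k : ZMod N)⁻¹).val, ?_⟩
      rw [h1, ZMod.natCast_zmod_val, sub_sub_cancel, mul_assoc, mul_comm _ (k : ZMod N),
        ZMod.coe_mul_inv_eq_one k hcop, mul_one]
    have hM : ∀ j : ZMod m, ∃ n : ℕ, j = n := fun j => ⟨j.val, (ZMod.natCast_zmod_val j).symm⟩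
    refine ⟨ZMod k → ZMod N × ZMod m × ZMod m, inferInstance, inferInstance,
      tw χ h0 ha k, tw_ax χ h0 ha k, indec_of_const ?_, ?_, x0 k, ?_, ?_, ?_⟩
    · exact tw_const χ h0 ha (by simpa using nz 1 (by norm_num) (by norm_num))
        (by simpa using nz 2 (by norm_num) (by norm_num))
        (by simpa using nz 3 (by norm_num) (by norm_num)) hR hM k
    · rw [Fintype.card_fun, Fintype.card_prod, Fintype.card_prod, ZMod.card, ZMod.card, ZMod.card,
        Nat.primeFactors_pow _ (by omega), hcard]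
    · exact (tw_x0_order χ h0 ha k (by omega) h1).1
    · rw [Fintype.card_fun, Fintype.card_prod, Fintype.card_prod, ZMod.card, ZMod.card]
      exact Nat.Coprime.pow_right _ (hcop.mul_right (hcm.mul_right hcm))
    · exact fun _ => (tw_x0_order χ h0 ha k (by omega) h1).2

end Pool.Agent.P.MP_6d14ae_al
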